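import Mathlib

/-!
# General position by small perturbation

`gen`: any finite family of points of `ℝ^d` can be moved by less than `η` so that all the points
of the family lying on one pair of parallel hyperplanes `|⟨y, ·⟩| = 1` are linearly independent.
-/

namespace Pool.Agent.RPS

open MeasureTheory Module

section

variable {d : ℕ}

private theorem level_null (y : EuclideanSpace ℝ (Fin d)) (c : ℝ) (hc : c ≠ 0) :
    volume {q : EuclideanSpace ℝ (Fin d) | inner ℝ y q = c} = 0 := by
  by_cases hy : y = 0
  · have : {q : EuclideanSpace ℝ (Fin d) | inner ℝ y q = c} = ∅ := by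
      ext q
      simp only [Set.mem_ofPred_eq, Set.mem_empty_iff_false, iff_false]
      rw [hy, inner_zero_left]
      exact fun h => hc h.symm
    rw [this]
    exact measure_empty
  · set l : EuclideanSpace ℝ (Fin d) →ₗ[ℝ] ℝ := (innerSL ℝ y).toLinearMap with hl
    have hlq : ∀ q, l q = inner ℝ y q := fun q => by simp [hl]
    have hne : (LinearMap.ker l) ≠ ⊤ := by
      intro h
      have : y ∈ LinearMap.ker l := by rw [h]; trivial
      rw [LinearMap.mem_ker, hlq] at this
      exact hy (inner_self_eq_zero.1 this)
    have hyy : inner ℝ y y ≠ (0 : ℝ) := fun h => hy (inner_self_eq_zero.1 h)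
    have h1 : {q : EuclideanSpace ℝ (Fin d) | inner ℝ y q = c}
        = (fun q => q + (-((c / inner ℝ y y) • y))) ⁻¹' (LinearMap.ker l : Set (EuclideanSpace ℝ (Fin d))) := by
      ext q
      simp only [Set.mem_ofPred_eq, Set.mem_preimage, SetLike.mem_coe, LinearMap.mem_ker, hlq]
      rw [inner_add_right, inner_neg_right, inner_smul_right, div_mul_cancel₀ _ hyy]
      constructor
      · intro h; rw [h]; ring
      · intro h; linarith
    rw [h1, measure_preimage_add_right]
    exact Measure.addHaar_submodule volume _ hne

private theorem abs_null (y : EuclideanSpace ℝ (Fin d)) :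
    volume {q : EuclideanSpace ℝ (Fin d) | |inner ℝ y q| = 1} = 0 := by
  have : {q : EuclideanSpace ℝ (Fin d) | |inner ℝ y q| = 1}
      ⊆ {q | inner ℝ y q = 1} ∪ {q | inner ℝ y q = -1} := by
    intro q hq
    rcases abs_eq (zero_le_one' ℝ) |>.1 hq with h | h
    · exact Or.inl h
    · exact Or.inr h
  exact measure_mono_null this (measure_union_null (level_null y 1 one_ne_zero)
    (level_null y (-1) (by norm_num)))

private theorem finite_dual {ι : Type} [Fintype ι] (p : ι → EuclideanSpace ℝ (Fin d)) (s : Finset ι)
    (hs : Submodule.span ℝ (p '' (s : Set ι)) = ⊤) :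
    {y : EuclideanSpace ℝ (Fin d) | ∀ i ∈ s, |inner ℝ y (p i)| = 1}.Finite := by
  classical
  set Y := {y : EuclideanSpace ℝ (Fin d) | ∀ i ∈ s, |inner ℝ y (p i)| = 1} with hY
  let f : EuclideanSpace ℝ (Fin d) → (ι → ℝ) := fun y i => if i ∈ s then inner ℝ y (p i) else 1
  have hfin : (Set.univ.pi (fun _ : ι => ({1, -1} : Set ℝ))).Finite :=
    Set.Finite.pi' (fun _ => (Set.finite_singleton (-1 : ℝ)).insert 1) |>.subset (by
      intro g hg i
      exact hg i (Set.mem_univ i))
  refine Set.Finite.of_finite_image (f := f) (hfin.subset ?_) ?_
  · rintro _ ⟨y, hy, rfl⟩ i _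
    by_cases hi : i ∈ s
    · have := hy i hi
      simp only [f, hi, if_true]
      rcases abs_eq (zero_le_one' ℝ) |>.1 this with h | h
      · rw [h]; exact Or.inl rfl
      · rw [h]; exact Or.inr rfl
    · simp only [f, hi, if_false]
      exact Or.inl rfl
  · intro y _ z _ hyz
    have h1 : ∀ i ∈ s, inner ℝ (y - z) (p i) = (0 : ℝ) := by
      intro i hi
      have := congrFun hyz i
      simp only [f, hi, if_true] at this
      rw [inner_sub_left, this, sub_self]
    have h2 : ∀ v ∈ Submodule.span ℝ (p '' (s : Set ι)), inner ℝ (y - z) v = (0 : ℝ) := by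
      intro v hv
      induction hv using Submodule.span_induction with
      | mem v hv =>
        obtain ⟨i, hi, rfl⟩ := hv
        exact h1 i hi
      | zero => exact inner_zero_right _
      | add v w _ _ hv hw => rw [inner_add_right, hv, hw, add_zero]
      | smul c v _ hv => rw [inner_smul_right, hv, mul_zero]
    have h3 : inner ℝ (y - z) (y - z) = (0 : ℝ) := h2 _ (by rw [hs]; trivial)
    exact sub_eq_zero.1 (inner_self_eq_zero.1 h3)

theorem gen (hd : 0 < d) {ι : Type} [Fintype ι] (x : ι → EuclideanSpace ℝ (Fin d)) {η : ℝ} (hη : 0 < η) :
    ∃ p : ι → EuclideanSpace ℝ (Fin d), (∀ i, ‖p i - x i‖ < η) ∧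
      ∀ (s : Finset ι) (y : EuclideanSpace ℝ (Fin d)), (∀ i ∈ s, |inner ℝ y (p i)| = 1) →
        LinearIndepOn ℝ p (s : Set ι) := by
  classical
  have key : ∀ t : Finset ι, ∃ p : ι → EuclideanSpace ℝ (Fin d), (∀ i, ‖p i - x i‖ < η) ∧
      ∀ (s : Finset ι), s ⊆ t → ∀ (y : EuclideanSpace ℝ (Fin d)), (∀ i ∈ s, |inner ℝ y (p i)| = 1) →
        LinearIndepOn ℝ p (s : Set ι) := by
    intro t
    induction t using Finset.induction_on with
    | empty =>
      refine ⟨x, fun i => by simpa using hη, fun s hs y _ => ?_⟩
      rw [Finset.subset_empty.1 hs]
      simp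
    | insert a t hat ih =>
      obtain ⟨p, hp, hI⟩ := ih
      -- the bad set
      let B : Finset ι → Set (EuclideanSpace ℝ (Fin d)) := fun s =>
        if Submodule.span ℝ (p '' (s : Set ι)) = ⊤ then
          ⋃ y ∈ {y : EuclideanSpace ℝ (Fin d) | ∀ i ∈ s, |inner ℝ y (p i)| = 1},
            {q : EuclideanSpace ℝ (Fin d) | |inner ℝ y q| = 1}
        else (Submodule.span ℝ (p '' (s : Set ι)) : Set (EuclideanSpace ℝ (Fin d)))
      have hB : ∀ s, volume (B s) = 0 := by
        intro s
        by_cases hs : Submodule.span ℝ (p '' (s : Set ι)) = ⊤
        · simp only [B, hs, if_true]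
          refine (measure_biUnion_null_iff (finite_dual p s hs).countable).2 ?_
          intro y _
          exact abs_null y
        · simp only [B, hs, if_false]
          exact Measure.addHaar_submodule volume _ hs
      have hBU : volume (⋃ s ∈ t.powerset, B s) = 0 := by
        refine (measure_biUnion_null_iff (Finset.countable_toSet _)).2 ?_
        intro s _
        exact hB s
      have hq : ∃ q ∈ Metric.ball (x a) η, q ∉ ⋃ s ∈ t.powerset, B s := by
        by_contra hcon
        push Not at hcon
        have h1 : 0 < volume (Metric.ball (x a) η) := Metric.measure_ball_pos volume _ hη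
        have h2 : volume (Metric.ball (x a) η) ≤ 0 := by
          rw [← hBU]
          exact measure_mono hcon
        exact absurd h1 (not_lt.2 h2)
      obtain ⟨q, hqb, hqB⟩ := hq
      have hqB' : ∀ s, s ⊆ t → q ∉ B s := by
        intro s hs hqs
        exact hqB (Set.mem_biUnion (Finset.mem_powerset.2 hs) hqs)
      refine ⟨Function.update p a q, ?_, ?_⟩
      · intro i
        by_cases hi : i = a
        · subst hi
          rw [Function.update_self]
          rwa [Metric.mem_ball, dist_eq_norm] at hqb
        · rw [Function.update_of_ne hi]
          exact hp i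
      · intro s hs y hy
        have hcongr : ∀ r : Finset ι, a ∉ r → LinearIndepOn ℝ p (r : Set ι) →
            LinearIndepOn ℝ (Function.update p a q) (r : Set ι) := by
          intro r har hr
          refine hr.congr ?_
          intro i hi
          have : i ≠ a := fun h => har (h ▸ hi)
          rw [Function.update_of_ne this]
        by_cases has : a ∈ s
        · set s0 := s.erase a with hs0
          have hs0t : s0 ⊆ t := by
            intro i hi
            rw [hs0, Finset.mem_erase] at hi
            rcases Finset.mem_insert.1 (hs hi.2) with h | h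
            · exact absurd h hi.1
            · exact h
          have hy0 : ∀ i ∈ s0, |inner ℝ y (p i)| = 1 := by
            intro i hi
            rw [hs0, Finset.mem_erase] at hi
            have := hy i hi.2
            rwa [Function.update_of_ne hi.1] at this
          have hya : |inner ℝ y q| = 1 := by
            have := hy a has
            rwa [Function.update_self] at this
          have hli := hI s0 hs0t y hy0
          have has0 : a ∉ s0 := by simp [hs0]
          have hqs : q ∉ Submodule.span ℝ (p '' (s0 : Set ι)) := by
            intro hmem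
            by_cases htop : Submodule.span ℝ (p '' (s0 : Set ι)) = ⊤
            · refine hqB' s0 hs0t ?_
              simp only [B, htop, if_true]
              exact Set.mem_biUnion (show y ∈ {y | ∀ i ∈ s0, |inner ℝ y (p i)| = 1} from hy0) hya
            · refine hqB' s0 hs0t ?_
              simp only [B, htop, if_false]
              exact hmem
          have hse : (s : Set ι) = insert a (s0 : Set ι) := by
            rw [hs0, ← Finset.coe_insert, Finset.insert_erase has]
          rw [hse, linearIndepOn_insert (by exact_mod_cast has0)]
          refine ⟨hcongr s0 has0 hli, ?_⟩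
          rw [Function.update_self]
          have him : Function.update p a q '' (s0 : Set ι) = p '' (s0 : Set ι) := by
            apply Set.image_congr
            intro i hi
            have : i ≠ a := fun h => has0 (h ▸ hi)
            rw [Function.update_of_ne this]
          rw [him]
          exact hqs
        · refine hcongr s has (hI s ?_ y ?_)
          · intro i hi
            rcases Finset.mem_insert.1 (hs hi) with h | h
            · exact absurd (h ▸ hi) has
            · exact h
          · intro i hi
            have hne : i ≠ a := fun h => has (h ▸ hi)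
            have := hy i hi
            rwa [Function.update_of_ne hne] at this
  obtain ⟨p, hp, hI⟩ := key Finset.univ
  exact ⟨p, hp, fun s y hy => hI s (Finset.subset_univ s) y hy⟩

end

end Pool.Agent.RPS
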