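import Mathlib

/-!
# Near maximisers of linear functionals on a finite set (helper26)
-/

set_option autoImplicit false

namespace Pool.Agent.RPS

/-- a common bound for finitely many antitone conditions -/
theorem exists_common {α : Type*} (s : Finset α) (P : α → ℝ → Prop)
    (hP : ∀ a ∈ s, ∀ d e : ℝ, d ≤ e → P a e → P a d)
    (h : ∀ a ∈ s, ∃ d : ℝ, 0 < d ∧ P a d) : ∃ d : ℝ, 0 < d ∧ ∀ a ∈ s, P a d := by
  classical
  induction s using Finset.induction_on with
  | empty => exact ⟨1, one_pos, by simp⟩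
  | insert a s ha ih =>
    obtain ⟨d, hd, hd'⟩ := ih (fun b hb => hP b (Finset.mem_insert_of_mem hb))
      (fun b hb => h b (Finset.mem_insert_of_mem hb))
    obtain ⟨e, he, he'⟩ := h a (Finset.mem_insert_self a s)
    refine ⟨min d e, lt_min hd he, ?_⟩
    intro b hb
    rcases Finset.mem_insert.1 hb with rfl | hb'
    · exact hP _ (Finset.mem_insert_self _ s) _ _ (min_le_right d e) he'
    · exact hP _ (Finset.mem_insert_of_mem hb') _ _ (min_le_left d e) (hd' b hb')

theorem near {E : Type} [NormedAddCommGroup E] [InnerProductSpace ℝ E] [FiniteDimensional ℝ E] (X : Finset E)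
    (h1 : ∀ y : E, y ≠ 0 → ∃ x ∈ X, 0 < inner ℝ y x)
    (h2 : ∀ y : E, y ≠ 0 → ∀ a ∈ X, ∀ b ∈ X, (∀ c ∈ X, inner ℝ y c ≤ inner ℝ y a) →
      (∀ c ∈ X, inner ℝ y c ≤ inner ℝ y b) → 0 < inner ℝ a b) :
    ∃ δ : ℝ, 0 < δ ∧ (∀ y : E, ‖y‖ = 1 → ∃ x ∈ X, δ ≤ inner ℝ y x) ∧
      ∀ y : E, ‖y‖ = 1 → ∀ a ∈ X, ∀ b ∈ X, (∀ c ∈ X, inner ℝ y c ≤ inner ℝ y a + δ) →
        (∀ c ∈ X, inner ℝ y c ≤ inner ℝ y b + δ) → 0 < inner ℝ a b := by
  classical
  have hne0 : ∀ y : E, ‖y‖ = 1 → y ≠ 0 := by
    intro y hy h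
    rw [h, norm_zero] at hy
    exact zero_ne_one hy
  rcases X.eq_empty_or_nonempty with hX | hX
  · subst hX
    refine ⟨1, one_pos, ?_, ?_⟩
    · intro y hy
      obtain ⟨x, hx, _⟩ := h1 y (hne0 y hy)
      exact absurd hx (Finset.notMem_empty x)
    · intro y hy a ha
      exact absurd ha (Finset.notMem_empty a)
  let M : E → ℝ := fun y => X.sup' hX (fun c => inner ℝ y c)
  have hMc : Continuous M := by
    apply Continuous.finset_sup'_apply
    intro c _
    exact Continuous.inner continuous_id continuous_const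
  have hMle : ∀ y : E, ∀ c ∈ X, inner ℝ y c ≤ M y := fun y c hc =>
    Finset.le_sup' (fun c => (inner ℝ y c : ℝ)) hc
  have hMex : ∀ y : E, ∃ c ∈ X, M y = inner ℝ y c := fun y =>
    Finset.exists_mem_eq_sup' hX (fun c => (inner ℝ y c : ℝ))
  have hS : IsCompact (Metric.sphere (0 : E) 1) := isCompact_sphere _ _
  have hmem : ∀ y : E, y ∈ Metric.sphere (0 : E) 1 ↔ ‖y‖ = 1 := fun y => by
    rw [mem_sphere_zero_iff_norm]
  obtain ⟨δ1, hδ1, h1'⟩ := hS.exists_forall_le' (f := M) hMc.continuousOn (a := 0) (by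
    intro y hy
    obtain ⟨x, hx, hx'⟩ := h1 y (hne0 y ((hmem y).1 hy))
    exact lt_of_lt_of_le hx' (hMle y x hx))
  have h3 : ∃ d : ℝ, 0 < d ∧ ∀ p ∈ X ×ˢ X, (fun (p : E × E) (d : ℝ) => ¬ (0 < (inner ℝ p.1 p.2 : ℝ)) →
      ∀ y : E, ‖y‖ = 1 → d ≤ max (M y - inner ℝ y p.1) (M y - inner ℝ y p.2)) p d := by
    apply exists_common
    · intro p _ d e hde he hp y hy
      exact le_trans hde (he hp y hy)
    · intro p hp
      rw [Finset.mem_product] at hp
      by_cases hpos : 0 < (inner ℝ p.1 p.2 : ℝ)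
      · exact ⟨1, one_pos, fun h => absurd hpos h⟩
      · have hc : Continuous (fun y : E => max (M y - inner ℝ y p.1) (M y - inner ℝ y p.2)) := by
          have e1 : Continuous (fun y : E => M y - inner ℝ y p.1) :=
            hMc.sub (Continuous.inner continuous_id continuous_const)
          have e2 : Continuous (fun y : E => M y - inner ℝ y p.2) :=
            hMc.sub (Continuous.inner continuous_id continuous_const)
          exact e1.max e2
        obtain ⟨d, hd, hd'⟩ := hS.exists_forall_le' (f := fun y : E => max (M y - inner ℝ y p.1) (M y - inner ℝ y p.2))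
          hc.continuousOn (a := 0) (by
            intro y hy
            by_contra hcon
            rw [not_lt, max_le_iff] at hcon
            apply hpos
            apply h2 y (hne0 y ((hmem y).1 hy)) p.1 hp.1 p.2 hp.2
            · intro c hc'
              have := hMle y c hc'
              linarith [hcon.1]
            · intro c hc'
              have := hMle y c hc'
              linarith [hcon.2])
        exact ⟨d, hd, fun _ y hy => hd' y ((hmem y).2 hy)⟩
  obtain ⟨d, hd, h3'⟩ := h3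
  refine ⟨min δ1 (d / 2), lt_min hδ1 (by linarith), ?_, ?_⟩
  · intro y hy
    obtain ⟨c, hc, hc'⟩ := hMex y
    refine ⟨c, hc, ?_⟩
    rw [← hc']
    exact le_trans (min_le_left _ _) (h1' y ((hmem y).2 hy))
  · intro y hy a ha b hb hac hbc
    by_contra hcon
    have h4 := h3' (a, b) (Finset.mem_product.2 ⟨ha, hb⟩) hcon y hy
    obtain ⟨c, hc, hc'⟩ := hMex y
    have h5 := hac c hc
    have h6 := hbc c hc
    have h7 := min_le_right δ1 (d / 2)
    rcases le_max_iff.1 h4 with h8 | h8
    · simp only at h8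
      rw [hc'] at h8
      linarith
    · simp only at h8
      rw [hc'] at h8
      linarith

theorem hull_face {E : Type} [AddCommGroup E] [Module ℝ E] (X : Finset E) (l : E →ₗ[ℝ] ℝ) (M : ℝ)
    (h : ∀ x ∈ X, l x ≤ M) (x : E)
    (hx : x ∈ convexHull ℝ (X : Set E)) (hM : l x = M) : x ∈ convexHull ℝ {v : E | v ∈ X ∧ l v = M} := by
  classical
  rw [Finset.mem_convexHull'] at hx
  obtain ⟨w, hw0, hw1, hwx⟩ := hx
  have e1 : ∑ v ∈ X, w v * (M - l v) = 0 := by
    have e2 : l x = ∑ v ∈ X, w v * l v := by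
      rw [← hwx, map_sum]
      apply Finset.sum_congr rfl
      intro v _
      rw [map_smul, smul_eq_mul]
    have e3 : ∑ v ∈ X, w v * (M - l v) = (∑ v ∈ X, w v) * M - ∑ v ∈ X, w v * l v := by
      rw [Finset.sum_mul, ← Finset.sum_sub_distrib]
      apply Finset.sum_congr rfl
      intro v _
      ring
    rw [e3, hw1, ← e2, hM]
    ring
  have e4 : ∀ v ∈ X, w v * (M - l v) = 0 := by
    rw [Finset.sum_eq_zero_iff_of_nonneg] at e1
    · exact e1
    · intro v hv
      exact mul_nonneg (hw0 v hv) (by linarith [h v hv])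
  have e5 : ∀ v ∈ X, l v ≠ M → w v = 0 := by
    intro v hv hne
    rcases mul_eq_zero.1 (e4 v hv) with h0 | h0
    · exact h0
    · exact absurd (by linarith) hne
  have e6 : ∑ v ∈ X with l v = M, w v = 1 := by
    rw [← hw1]
    apply Finset.sum_filter_of_ne
    intro v hv hne
    by_contra hcon
    exact hne (e5 v hv hcon)
  have e7 : ∑ v ∈ X with l v = M, w v • v = x := by
    rw [← hwx]
    apply Finset.sum_filter_of_ne
    intro v hv hne
    by_contra hcon
    exact hne (by rw [e5 v hv hcon, zero_smul])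
  rw [← e7]
  apply (convex_convexHull ℝ _).sum_mem
  · intro v hv
    exact hw0 v (Finset.mem_filter.1 hv).1
  · exact e6
  · intro v hv
    apply subset_convexHull
    exact ⟨(Finset.mem_filter.1 hv).1, (Finset.mem_filter.1 hv).2⟩

end Pool.Agent.RPS
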